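import Pool.Agent.Helper75.FU.StL

/-! # Project FU, module L1 -/

set_option autoImplicit false

namespace Pool.Agent.Helper83.FU

open Pool.Agent.Helper75.FU

theorem l1_gen (n : ℕ) (Λ : AddSubgroup (Fin n → ℤ)) (D : ℤ) (hD : 0 < D)
    (hL : ∀ i, (Pi.single i D : Fin n → ℤ) ∈ Λ) (j : Fin n) :
    ∃ g ∈ Λ, (∀ i, i < j → g i = 0) ∧ 0 < g j ∧
      ∀ x ∈ Λ, (∀ i, i < j → x i = 0) → g j ∣ x j := by
  classical
  have hex : ∃ m : ℕ, 0 < m ∧ ∃ x ∈ Λ, (∀ i, i < j → x i = 0) ∧ x j = (m : ℤ) := by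
    refine ⟨D.toNat, by omega, Pi.single j D, hL j, ?_, ?_⟩
    · intro i hi
      rw [Pi.single_eq_of_ne hi.ne]
    · rw [Pi.single_eq_same]
      omega
  obtain ⟨hm, g, hg, hg0, hgj⟩ := Nat.find_spec hex
  have hmin := fun m (h : m < Nat.find hex) => Nat.find_min hex h
  refine ⟨g, hg, hg0, by rw [hgj]; exact_mod_cast hm, ?_⟩
  intro x hx hx0
  have hpos : 0 < g j := by rw [hgj]; exact_mod_cast hm
  have h1 : x - (x j / g j) • g ∈ Λ := Λ.sub_mem hx (Λ.zsmul_mem hg _)
  have h2 : (x - (x j / g j) • g) j = x j % g j := by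
    simp only [Pi.sub_apply, Pi.smul_apply, smul_eq_mul]
    have := Int.emod_add_mul_ediv (x j) (g j)
    linarith [mul_comm (g j) (x j / g j)]
  have h3 : 0 ≤ x j % g j := Int.emod_nonneg _ hpos.ne'
  have h4 : x j % g j < g j := Int.emod_lt_of_pos _ hpos
  by_contra hnd
  have h5 : x j % g j ≠ 0 := fun h => hnd (Int.dvd_of_emod_eq_zero h)
  refine hmin (x j % g j).toNat ?_ ⟨?_, x - (x j / g j) • g, h1, ?_, ?_⟩
  · have : ((x j % g j).toNat : ℤ) < (Nat.find hex : ℤ) := by
      rw [← hgj, Int.toNat_of_nonneg h3]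
      exact h4
    exact_mod_cast this
  · omega
  · intro i hi
    simp only [Pi.sub_apply, Pi.smul_apply, smul_eq_mul, hx0 i hi, hg0 i hi, mul_zero, sub_zero]
  · rw [h2, Int.toNat_of_nonneg h3]

/-- **Module L1.** -/
theorem hL1 : StL1 := by
  classical
  intro n Λ D hD hL
  choose g hg hg0 hgp hgd using l1_gen n Λ D hD hL
  refine ⟨g, hg, hg0, hgp, ?_⟩
  intro x hx
  have key : ∀ l : ℕ, l ≤ n → ∃ c : Fin n → ℤ, ∀ i : Fin n, i.val < l →
      (x - ∑ j, c j • g j) i = 0 := by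
    intro l
    induction l with
    | zero =>
      intro _
      exact ⟨0, fun i hi => absurd hi (Nat.not_lt_zero _)⟩
    | succ l ih =>
      intro hl
      obtain ⟨c, hc⟩ := ih (by omega)
      set j₀ : Fin n := ⟨l, by omega⟩ with hj₀
      set y : Fin n → ℤ := x - ∑ j, c j • g j with hy
      have hyL : y ∈ Λ := Λ.sub_mem hx (Λ.sum_mem fun j _ => Λ.zsmul_mem (hg j) _)
      obtain ⟨t, ht⟩ := hgd j₀ y hyL fun i hi => hc i hi
      refine ⟨c + Pi.single j₀ t, ?_⟩
      intro i hi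
      have h1 : (x - ∑ j, (c + Pi.single j₀ t : Fin n → ℤ) j • g j) = y - t • g j₀ := by
        rw [hy, sub_sub]
        congr 1
        simp only [Pi.add_apply, add_smul, Finset.sum_add_distrib]
        congr 1
        rw [Finset.sum_eq_single j₀]
        · rw [Pi.single_eq_same]
        · intro b _ hb
          rw [Pi.single_eq_of_ne hb, zero_smul]
        · intro h
          exact absurd (Finset.mem_univ _) h
      rw [h1]
      simp only [Pi.sub_apply, Pi.smul_apply, smul_eq_mul]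
      rcases Nat.lt_succ_iff_lt_or_eq.1 hi with h | h
      · rw [hc i h, hg0 j₀ i h, mul_zero, sub_zero]
      · have h2 : i = j₀ := Fin.ext h
        rw [h2, ht]
        ring
  obtain ⟨c, hc⟩ := key n le_rfl
  refine ⟨c, ?_⟩
  funext i
  have := hc i i.isLt
  simp only [Pi.sub_apply] at this
  linarith

end Pool.Agent.Helper83.FU
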