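import Pool.Agent.Helper75.FU.StL

/-! # Project FU, module L2 -/

set_option autoImplicit false

namespace Pool.Agent.Helper83.FU

open Pool.Agent.Helper75.FU

theorem pz_add {p : ℕ} {x y : ℚ} (hx : PZ p x) (hy : PZ p y) : PZ p (x + y) := by
  obtain ⟨k, z, h⟩ := hx
  obtain ⟨l, w, h'⟩ := hy
  refine ⟨k + l, z * (p : ℤ) ^ l + w * (p : ℤ) ^ k, ?_⟩
  push_cast
  rw [← h, ← h', pow_add]
  ring

theorem pz_mul {p : ℕ} {x y : ℚ} (hx : PZ p x) (hy : PZ p y) : PZ p (x * y) := by
  obtain ⟨k, z, h⟩ := hx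
  obtain ⟨l, w, h'⟩ := hy
  refine ⟨k + l, z * w, ?_⟩
  push_cast
  rw [← h, ← h', pow_add]
  ring

theorem pz_int {p : ℕ} (z : ℤ) : PZ p (z : ℚ) := ⟨0, z, by simp⟩

theorem pz_zero {p : ℕ} : PZ p 0 := by simpa using pz_int (p := p) 0

theorem pz_one {p : ℕ} : PZ p 1 := by simpa using pz_int (p := p) 1

theorem pz_neg {p : ℕ} {x : ℚ} (hx : PZ p x) : PZ p (-x) := by
  have h := pz_mul (pz_int (p := p) (-1)) hx
  simpa using h

theorem pz_dense {p : ℕ} (hp : 2 ≤ p) {a b : ℚ} (hab : a < b) : ∃ t, PZ p t ∧ a < t ∧ t < b := by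
  have hp1 : (1 : ℚ) < p := by exact_mod_cast hp
  have hba : 0 < b - a := sub_pos.2 hab
  obtain ⟨k, hk⟩ := pow_unbounded_of_one_lt (1 / (b - a)) hp1
  have hpk : (0 : ℚ) < (p : ℚ) ^ k := by positivity
  have h1 : 1 < (p : ℚ) ^ k * (b - a) := by
    rwa [div_lt_iff₀ hba] at hk
  refine ⟨((⌊a * (p : ℚ) ^ k⌋ + 1 : ℤ) : ℚ) / (p : ℚ) ^ k, ⟨k, ⌊a * (p : ℚ) ^ k⌋ + 1, ?_⟩, ?_, ?_⟩
  · field_simp
  · rw [lt_div_iff₀ hpk]
    push_cast
    exact Int.lt_floor_add_one _
  · rw [div_lt_iff₀ hpk]
    push_cast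
    have := Int.floor_le (a * (p : ℚ) ^ k)
    nlinarith

theorem ps_self {p n : ℕ} (g : Fin n → (Fin n → ℚ)) (j : Fin n) : PSpan p n g (g j) := by
  classical
  refine ⟨Pi.single j 1, ?_, ?_⟩
  · intro i
    by_cases h : i = j
    · subst h
      rw [Pi.single_eq_same]
      exact pz_one
    · rw [Pi.single_eq_of_ne h]
      exact pz_zero
  · rw [Finset.sum_eq_single j]
    · rw [Pi.single_eq_same, one_smul]
    · intro b _ hb
      rw [Pi.single_eq_of_ne hb, zero_smul]
    · intro h
      exact absurd (Finset.mem_univ _) h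

theorem ps_zero {p n : ℕ} (g : Fin n → (Fin n → ℚ)) : PSpan p n g 0 :=
  ⟨0, fun _ => pz_zero, by simp⟩

theorem ps_add {p n : ℕ} {g : Fin n → (Fin n → ℚ)} {x y : Fin n → ℚ} (hx : PSpan p n g x)
    (hy : PSpan p n g y) : PSpan p n g (x + y) := by
  obtain ⟨c, hc, rfl⟩ := hx
  obtain ⟨d, hd, rfl⟩ := hy
  refine ⟨c + d, fun j => pz_add (hc j) (hd j), ?_⟩
  simp only [Pi.add_apply, add_smul, Finset.sum_add_distrib]

theorem ps_smul {p n : ℕ} {g : Fin n → (Fin n → ℚ)} {x : Fin n → ℚ} {t : ℚ} (ht : PZ p t)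
    (hx : PSpan p n g x) : PSpan p n g (t • x) := by
  obtain ⟨c, hc, rfl⟩ := hx
  refine ⟨t • c, fun j => pz_mul ht (hc j), ?_⟩
  rw [Finset.smul_sum]
  refine Finset.sum_congr rfl fun j _ => ?_
  rw [Pi.smul_apply, smul_eq_mul, mul_smul]

theorem ps_neg {p n : ℕ} {g : Fin n → (Fin n → ℚ)} {x : Fin n → ℚ} (hx : PSpan p n g x) :
    PSpan p n g (-x) := by
  have h := ps_smul (pz_neg (pz_one (p := p))) hx
  simpa using h

theorem ps_sub {p n : ℕ} {g : Fin n → (Fin n → ℚ)} {x y : Fin n → ℚ} (hx : PSpan p n g x)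
    (hy : PSpan p n g y) : PSpan p n g (x - y) := by
  rw [sub_eq_add_neg]
  exact ps_add hx (ps_neg hy)

theorem ps_sum {p n : ℕ} {g : Fin n → (Fin n → ℚ)} {ι : Type} (s : Finset ι)
    (v : ι → (Fin n → ℚ)) (hv : ∀ i ∈ s, PSpan p n g (v i)) : PSpan p n g (∑ i ∈ s, v i) := by
  classical
  induction s using Finset.induction_on with
  | empty => simpa using ps_zero g
  | insert a s ha ih =>
    rw [Finset.sum_insert ha]
    exact ps_add (hv a (Finset.mem_insert_self _ _))
      (ih fun i hi => hv i (Finset.mem_insert_of_mem hi))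

/-- Step 1 for one vector. -/
theorem l2_step (n p : ℕ) (hp : 2 ≤ p) (G : Fin n → (Fin n → ℚ)) (h0 : ∀ j i, i < j → G j i = 0)
    (hpos : ∀ j, 0 < G j j) (e : ℚ) (he : 0 < e) (j : Fin n) :
    ∃ c : Fin n → ℚ, (∀ i, PZ p (c i)) ∧ (∀ i, i ≤ j → c i = 0) ∧
      ∀ i, j < i → 0 < (G j + ∑ l, c l • G l) i ∧ (G j + ∑ l, c l • G l) i < e := by
  classical
  have key : ∀ m : ℕ, m ≤ n → ∃ c : Fin n → ℚ, (∀ i, PZ p (c i)) ∧ (∀ i, i ≤ j → c i = 0) ∧
      ∀ i : Fin n, j < i → i.val < m →
        0 < (G j + ∑ l, c l • G l) i ∧ (G j + ∑ l, c l • G l) i < e := by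
    intro m
    induction m with
    | zero =>
      intro _
      exact ⟨0, fun _ => pz_zero, fun _ _ => rfl, fun i _ hi => absurd hi (Nat.not_lt_zero _)⟩
    | succ m ih =>
      intro hm
      obtain ⟨c, hc, hc0, hci⟩ := ih (by omega)
      set i₀ : Fin n := ⟨m, by omega⟩ with hi₀
      by_cases hji : j < i₀
      · set v : Fin n → ℚ := G j + ∑ l, c l • G l with hv
        have hb := hpos i₀
        obtain ⟨t, ht, h1, h2⟩ := pz_dense hp (a := (-v i₀) / G i₀ i₀) (b := (e - v i₀) / G i₀ i₀)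
          (by
            apply div_lt_div_of_pos_right _ hb
            linarith)
        rw [div_lt_iff₀ hb] at h1
        rw [lt_div_iff₀ hb] at h2
        refine ⟨c + Pi.single i₀ t, ?_, ?_, ?_⟩
        · intro i
          rw [Pi.add_apply]
          refine pz_add (hc i) ?_
          by_cases h : i = i₀
          · rw [h, Pi.single_eq_same]
            exact ht
          · rw [Pi.single_eq_of_ne h]
            exact pz_zero
        · intro i hi
          rw [Pi.add_apply, hc0 i hi, Pi.single_eq_of_ne (ne_of_lt (lt_of_le_of_lt hi hji)), add_zero]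
        · intro i hi him
          have h3 : (G j + ∑ l, (c + Pi.single i₀ t : Fin n → ℚ) l • G l) = v + t • G i₀ := by
            rw [hv, add_assoc]
            congr 1
            simp only [Pi.add_apply, add_smul, Finset.sum_add_distrib]
            congr 1
            rw [Finset.sum_eq_single i₀]
            · rw [Pi.single_eq_same]
            · intro b _ hb
              rw [Pi.single_eq_of_ne hb, zero_smul]
            · intro h
              exact absurd (Finset.mem_univ _) h
          rw [h3]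
          simp only [Pi.add_apply, Pi.smul_apply, smul_eq_mul]
          rcases Nat.lt_succ_iff_lt_or_eq.1 him with h | h
          · rw [h0 i₀ i h, mul_zero, add_zero]
            exact hci i hi h
          · have h4 : i = i₀ := Fin.ext h
            rw [h4]
            constructor <;> linarith
      · refine ⟨c, hc, hc0, ?_⟩
        intro i hi him
        rcases Nat.lt_succ_iff_lt_or_eq.1 him with h | h
        · exact hci i hi h
        · exact absurd (show j < i₀ from (Fin.ext h : i = i₀) ▸ hi) hji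
  obtain ⟨c, hc, hc0, hci⟩ := key n le_rfl
  exact ⟨c, hc, hc0, fun i hi => hci i hi i.isLt⟩

/-- **Module L2.** -/
theorem hL2 : StL2 := by
  classical
  intro n p hp g hg0 hgp ε hε
  set G : Fin n → (Fin n → ℚ) := fun l i => (g l i : ℚ) with hG
  have hG0 : ∀ j i, i < j → G j i = 0 := fun j i h => by simp only [hG, hg0 j i h, Int.cast_zero]
  have hGp : ∀ j, 0 < G j j := fun j => by
    simp only [hG]
    exact_mod_cast hgp j
  choose c hc hc0 hci using l2_step n p hp G hG0 hGp (ε / 2) (by positivity)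
  set f' : Fin n → (Fin n → ℚ) := fun j => G j + ∑ l, c j l • G l with hf'
  have hf'gt : ∀ j i, j < i → 0 < f' j i ∧ f' j i < ε / 2 := fun j i h => hci j i h
  have hsum0 : ∀ j i, i ≤ j → (∑ l, c j l • G l) i = 0 := by
    intro j i hij
    rw [Finset.sum_apply]
    refine Finset.sum_eq_zero fun l _ => ?_
    rw [Pi.smul_apply, smul_eq_mul]
    by_cases hl : l ≤ j
    · rw [hc0 j l hl, zero_mul]
    · rw [hG0 l i (lt_of_le_of_lt hij (not_le.1 hl)), mul_zero]
  have hf'lt : ∀ j i, i < j → f' j i = 0 := by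
    intro j i h
    simp only [hf', Pi.add_apply, hG0 j i h, hsum0 j i h.le, add_zero]
  have hf'eq : ∀ j, f' j j = G j j := by
    intro j
    simp only [hf', Pi.add_apply, hsum0 j j le_rfl, add_zero]
  have hf'nn : ∀ j i, 0 ≤ f' j i := by
    intro j i
    rcases lt_trichotomy i j with h | h | h
    · rw [hf'lt j i h]
    · rw [h, hf'eq]
      exact (hGp j).le
    · exact (hf'gt j i h).1.le
  -- the number `θ`
  set T : ℚ := ∑ l, ∑ i, f' l i with hT
  have hT0 : 0 ≤ T := Finset.sum_nonneg fun l _ => Finset.sum_nonneg fun i _ => hf'nn l i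
  obtain ⟨θ, hθ, hθ0, hθ1⟩ := pz_dense hp (a := 0) (b := ε / 2 / (T + 1)) (by positivity)
  have hθT : θ * T < ε / 2 := by
    rw [lt_div_iff₀ (by positivity)] at hθ1
    nlinarith
  have hpart : ∀ j i, 0 ≤ ∑ l ∈ Finset.univ.filter (· < j), f' l i ∧
      ∑ l ∈ Finset.univ.filter (· < j), f' l i ≤ T := by
    intro j i
    refine ⟨Finset.sum_nonneg fun l _ => hf'nn l i, ?_⟩
    calc ∑ l ∈ Finset.univ.filter (· < j), f' l i ≤ ∑ l, f' l i :=
          Finset.sum_le_sum_of_subset_of_nonneg (Finset.filter_subset _ _) fun l _ _ => hf'nn l i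
      _ ≤ T := Finset.sum_le_sum fun l _ =>
          Finset.single_le_sum (f := fun i => f' l i) (fun i _ => hf'nn l i) (Finset.mem_univ i)
  set f : Fin n → (Fin n → ℚ) := fun j =>
    f' j + θ • ∑ l ∈ Finset.univ.filter (· < j), f' l with hf
  have hfa : ∀ j i, f j i = f' j i + θ * ∑ l ∈ Finset.univ.filter (· < j), f' l i := by
    intro j i
    simp only [hf, Pi.add_apply, Pi.smul_apply, Finset.sum_apply, smul_eq_mul]
  have hth : ∀ j i, 0 ≤ θ * ∑ l ∈ Finset.univ.filter (· < j), f' l i ∧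
      θ * ∑ l ∈ Finset.univ.filter (· < j), f' l i < ε / 2 := by
    intro j i
    obtain ⟨h1, h2⟩ := hpart j i
    exact ⟨mul_nonneg hθ0.le h1, lt_of_le_of_lt (mul_le_mul_of_nonneg_left h2 hθ0.le) hθT⟩
  have hspanf' : ∀ j, PSpan p n G (f' j) := by
    intro j
    simp only [hf']
    exact ps_add (ps_self G j) (ps_sum _ _ fun l _ => ps_smul (hc j l) (ps_self G l))
  have hspanf'f : ∀ m : ℕ, ∀ j : Fin n, j.val = m → PSpan p n f (f' j) := by
    intro m
    induction m using Nat.strong_induction_on with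
    | _ m ih =>
      intro j hj
      have h1 : f' j = f j - θ • ∑ l ∈ Finset.univ.filter (· < j), f' l := by
        simp only [hf]
        abel
      rw [h1]
      refine ps_sub (ps_self f j) (ps_smul hθ (ps_sum _ _ fun l hl => ?_))
      have h2 : l < j := (Finset.mem_filter.1 hl).2
      exact ih l.val (by rw [← hj]; exact h2) l rfl
  have hspanGf : ∀ m : ℕ, ∀ j : Fin n, n - j.val = m → PSpan p n f (G j) := by
    intro m
    induction m using Nat.strong_induction_on with
    | _ m ih =>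
      intro j hj
      have h1 : G j = f' j - ∑ l, c j l • G l := by
        simp only [hf']
        abel
      rw [h1]
      refine ps_sub (hspanf'f j.val j rfl) (ps_sum _ _ fun l _ => ?_)
      by_cases hl : l ≤ j
      · rw [hc0 j l hl, zero_smul]
        exact ps_zero f
      · refine ps_smul (hc j l) (ih (n - l.val) ?_ l rfl)
        have h2 : j.val < l.val := not_le.1 hl
        have h3 := l.isLt
        omega
  refine ⟨f, ?_, ?_, ?_, ?_, ?_⟩
  · intro j i
    rw [hfa]
    obtain ⟨h1, h2⟩ := hth j i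
    rcases lt_trichotomy i j with h | h | h
    · rw [hf'lt j i h, zero_add]
      refine mul_pos hθ0 ?_
      refine Finset.sum_pos' (fun l _ => hf'nn l i) ⟨i, ?_, ?_⟩
      · exact Finset.mem_filter.2 ⟨Finset.mem_univ _, h⟩
      · rw [hf'eq]
        exact hGp i
    · subst h
      rw [hf'eq]
      linarith [hGp i]
    · linarith [(hf'gt j i h).1]
  · intro j i hij
    rw [hfa]
    obtain ⟨h1, h2⟩ := hth j i
    rcases lt_or_gt_of_ne hij with h | h
    · rw [hf'lt j i h]
      linarith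
    · linarith [(hf'gt j i h).2]
  · intro j
    rw [hfa, hf'eq]
    obtain ⟨h1, h2⟩ := hth j j
    have h3 : G j j + θ * ∑ l ∈ Finset.univ.filter (· < j), f' l j - (g j j : ℚ) =
        θ * ∑ l ∈ Finset.univ.filter (· < j), f' l j := by
      simp only [hG]
      ring
    rw [h3, abs_of_nonneg h1]
    linarith
  · intro j
    simp only [hf]
    exact ps_add (hspanf' j) (ps_smul hθ (ps_sum _ _ fun l _ => hspanf' l))
  · intro j
    exact hspanGf (n - j.val) j rfl

end Pool.Agent.Helper83.FU
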